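import Pool.Agent.H28BS.Weigh

/-!
# Weighing matrices of all large orders `4 m` whose weights are products of Golay factors

For Golay numbers `a`, `b`, `c ≥ 1` put `p = (2a+1) (2b+1)` and `q = p (2c+1)`. There are weighing matrices
`W(4m, p)` and `W(4m, 2p)` for all `m` with `2m ≥ p + 1`, and `W(4m, q)`, `W(4m, 2q)`, `W(4m, 3q)`,
`W(4m, 4q)` for all `m ≥ q`.

The base sequences `BS(n+1, n)`, `2n + 1 = p`, made of two Golay pairs (`Pool.Agent.H28BS.base_exists`) and
the `T`-sequences of length `q` which Yang's composition makes of them and a third pair are followed by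
zeros and put into the Goethals-Seidel array.
-/

set_option autoImplicit false

open Matrix

namespace Pool.Agent.Results.MP_be2ccc_co.GolayProductWeights

open Pool.Agent.H28BS

/-- There is a weighing matrix of order `n` and weight `k`. -/
def IsWeighingPair (n k : ℕ) : Prop :=
  ∃ A : Matrix (Fin n) (Fin n) ℤ, (∀ i j, A i j = 0 ∨ A i j = 1 ∨ A i j = -1) ∧
    Aᵀ * A = (k : ℤ) • 1 ∧ A * Aᵀ = (k : ℤ) • 1

/-- `g` is a Golay number: there is a pair of `±1` sequences of length `g` (extended by zero) whose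
nonperiodic autocorrelations cancel at every shift `j ≥ 1`. -/
def IsGolayNumber (g : ℕ) : Prop :=
  ∃ P Q : ℕ → ℤ,
    (∀ i, i < g → (P i = 1 ∨ P i = -1)) ∧ (∀ i, g ≤ i → P i = 0) ∧
    (∀ i, i < g → (Q i = 1 ∨ Q i = -1)) ∧ (∀ i, g ≤ i → Q i = 0) ∧
    (∀ j : ℕ, 1 ≤ j → ∑ i ∈ Finset.range g, (P i * P (i + j) + Q i * Q (i + j)) = 0)

theorem result :
    (∀ a b p m : ℕ, 1 ≤ a → 1 ≤ b → IsGolayNumber a → IsGolayNumber b →
      p = (2 * a + 1) * (2 * b + 1) → p + 1 ≤ 2 * m →
      IsWeighingPair (4 * m) p ∧ IsWeighingPair (4 * m) (2 * p)) ∧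
    (∀ a b c q m j : ℕ, 1 ≤ a → 1 ≤ b → IsGolayNumber a → IsGolayNumber b → IsGolayNumber c →
      q = (2 * a + 1) * (2 * b + 1) * (2 * c + 1) → q ≤ m → 1 ≤ j → j ≤ 4 →
      IsWeighingPair (4 * m) (j * q)) ∧
    (∀ i j k : ℕ, IsGolayNumber (2 ^ i * 10 ^ j * 26 ^ k)) := by
  refine ⟨fun a b p m ha hb ga gb hp hm => ?_, fun a b c q m j ha hb ga gb gc hq hm h1 h4 => ?_,
    fun i j k => ?_⟩
  · obtain ⟨A, B, C, D, h⟩ := base_exists ha hb ga gb
    have e : 2 * (2 * a * b + a + b) + 1 = p := by rw [hp]; ring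
    have key := weigh_base h (m := m) (by omega)
    rw [e] at key
    exact ⟨key.2, key.1⟩
  · obtain ⟨A, B, C, D, h⟩ := base_exists ha hb ga gb
    obtain ⟨F, G, hF⟩ := gp_of_golayNumber gc
    have e : 2 * (2 * a * b + a + b) + 1 = (2 * a + 1) * (2 * b + 1) := by ring
    have hm1 : 1 ≤ 2 * a * b + a + b := by omega
    have key := weigh_yang hm1 h hF (M := m) (by rw [e, ← hq]; exact hm) h1 h4
    rw [e, ← hq] at key
    exact key
  · obtain ⟨P, Q, h⟩ := gp_exists i j k
    exact golayNumber_of_gp h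

end Pool.Agent.Results.MP_be2ccc_co.GolayProductWeights
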